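import Pool.Agent.Helper79.KW.Base

/-!
# Piece TC: the scalar lemma and its consequence for sections
-/

open CategoryTheory Topology
open scoped ENNReal

namespace Pool.Agent.KW

universe u v

section TopSpec

variable {X : Type u} [Groupoid.{u} X] [TopologicalSpace X] [TopologicalSpace (Arr X)]

namespace TC

omit [TopologicalSpace X] [TopologicalSpace (Arr X)] in
theorem arr_inj {y : X} {g g' : Fibre y} (h : arr g = arr g') : g = g' := by
  obtain ⟨z, g⟩ := g
  obtain ⟨z', g'⟩ := g'
  simp only [arr, Arr.mk.injEq] at h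
  obtain ⟨-, h1, h2⟩ := h
  subst h1
  have := eq_of_heq h2
  subst this
  rfl

omit [TopologicalSpace X] [TopologicalSpace (Arr X)] in
theorem exists_arr {y : X} (a : Arr X) (h : a.src = y) : ∃ g : Fibre y, arr g = a := by
  subst h
  exact ⟨⟨a.tgt, a.hom⟩, rfl⟩

/-- `a b⁻¹` for two arrows with the same source -/
noncomputable def quotA (a b : Arr X) : Arr X :=
  open Classical in
  if h : b.src = a.src then ⟨b.tgt, a.tgt, Groupoid.inv b.hom ≫ eqToHom h ≫ a.hom⟩ else a

omit [TopologicalSpace X] [TopologicalSpace (Arr X)] in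
theorem quotA_arr {y : X} (g g' : Fibre y) : quotA (arr g) (arr g') = quot g g' := by
  unfold quotA
  rw [dif_pos (show (arr g').src = (arr g).src from rfl)]
  simp [quot, arr]

theorem continuousOn_quotA [EtaleGroupoid X] :
    ContinuousOn (fun p : Arr X × Arr X => quotA p.1 p.2) {p | p.2.src = p.1.src} := by
  rw [continuousOn_iff_continuous_domRestrict]
  let c : {p : Arr X × Arr X | p.2.src = p.1.src} → ComposablePair X := fun p =>
    ⟨p.1.2.tgt, p.1.2.src, p.1.1.tgt, Groupoid.inv p.1.2.hom, eqToHom p.2 ≫ p.1.1.hom⟩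
  have hc : Continuous c := by
    rw [continuous_induced_rng]
    have h1 : (ComposablePair.toProd ∘ c) =
        fun p : {p : Arr X × Arr X | p.2.src = p.1.src} => (invArr p.1.2, p.1.1) := by
      funext p
      obtain ⟨⟨⟨s, t, f⟩, ⟨s', t', f'⟩⟩, hp⟩ := p
      change s' = s at hp
      subst hp
      simp [c, ComposablePair.toProd, invArr]
    rw [h1]
    have h2 : Continuous (invArr : Arr X → Arr X) := EtaleGroupoid.inv_cont
    exact (h2.comp (continuous_snd.comp continuous_subtype_val)).prodMk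
      (continuous_fst.comp continuous_subtype_val)
  have h3 : Set.domRestrict {p : Arr X × Arr X | p.2.src = p.1.src}
      (fun p : Arr X × Arr X => quotA p.1 p.2) = ComposablePair.comp ∘ c := by
    funext p
    have hp : p.1.2.src = p.1.1.src := p.2
    simp only [Set.domRestrict_apply, quotA, Function.comp_apply, ComposablePair.comp, c]
    rw [dif_pos hp]
  rw [h3]
  exact EtaleGroupoid.comp_cont.comp hc

theorem t2 [EtaleGroupoid X] : T2Space X := by
  have : T2Space (Arr X) := EtaleGroupoid.t2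
  refine T2Space.of_injective_continuous (f := (unitArr : X → Arr X)) ?_ EtaleGroupoid.unit_cont
  intro x y h
  exact congrArg Arr.src h

theorem continuous_src [EtaleGroupoid X] : Continuous (Arr.src : Arr X → X) :=
  EtaleGroupoid.src_homeo.continuous

/-- local sections of the source map through a point of an open set -/
theorem exists_local_section [EtaleGroupoid X] (U : Set (Arr X)) (hU : IsOpen U) (g₀ : Arr X)
    (hg₀ : g₀ ∈ U) : ∃ σ : X → Arr X, ContinuousAt σ g₀.src ∧ σ g₀.src = g₀ ∧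
      ∀ᶠ y in 𝓝 g₀.src, σ y ∈ U ∧ (σ y).src = y := by
  obtain ⟨e, he, hes⟩ := (EtaleGroupoid.src_homeo : IsLocalHomeomorph (Arr.src : Arr X → X)) g₀
  have h1 : g₀.src = e g₀ := congrFun hes g₀
  have h2 : e g₀ ∈ e.target := e.map_source he
  refine ⟨e.symm, ?_, ?_, ?_⟩
  · rw [h1]
    exact e.symm.continuousAt h2
  · rw [h1]; exact e.left_inv he
  · have h3 : ContinuousAt e.symm g₀.src := by
      rw [h1]
      exact e.symm.continuousAt h2
    have h4 : e.symm g₀.src = g₀ := by rw [h1]; exact e.left_inv he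
    have h5 : ∀ᶠ y in 𝓝 g₀.src, e.symm y ∈ U :=
      h3.eventually_mem (by rw [h4]; exact hU.mem_nhds hg₀)
    have h6 : ∀ᶠ y in 𝓝 g₀.src, y ∈ e.target := by
      rw [h1]; exact e.open_target.mem_nhds h2
    filter_upwards [h5, h6] with y hy1 hy2
    refine ⟨hy1, ?_⟩
    have : Arr.src (e.symm y) = e (e.symm y) := congrFun hes _
    rw [this]
    exact e.right_inv hy2

omit [TopologicalSpace X] in
theorem eq_zero_of_notMem {R : Type*} [Zero R] {θ : Arr X → R} {U : Set (Arr X)}
    (h : tsupport θ ⊆ U) {g : Arr X} (hg : g ∉ U) : θ g = 0 :=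
  image_eq_zero_of_notMem_tsupport fun h' => hg (h h')

end TC

open TC in
theorem isCc_scalar [EtaleGroupoid X] (θ θ' η : Arr X → ℂ) (hθ : IsCc θ) (hθ' : IsCc θ')
    (hη : IsCc η) (bθ : BisSupp θ) (bθ' : BisSupp θ') :
    IsCc (fun y : X => ∑ᶠ g : Fibre y, ∑ᶠ g' : Fibre y, θ (arr g) * θ' (arr g') * η (quot g g')) := by
  have : T2Space X := t2
  obtain ⟨U, hU, hsU, hiU, -⟩ := bθ
  obtain ⟨U', hU', hsU', hiU', -⟩ := bθ'
  set F : X → ℂ := fun y : X =>
    ∑ᶠ g : Fibre y, ∑ᶠ g' : Fibre y, θ (arr g) * θ' (arr g') * η (quot g g') with hF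
  have hK : IsCompact (Arr.src '' tsupport θ) := hθ.2.isCompact.image continuous_src
  have hK' : IsCompact (Arr.src '' tsupport θ') := hθ'.2.isCompact.image continuous_src
  have hz : ∀ y, y ∉ Arr.src '' tsupport θ → F y = 0 := by
    intro y hy
    have : ∀ g : Fibre y, θ (arr g) = 0 := fun g =>
      image_eq_zero_of_notMem_tsupport fun h => hy ⟨arr g, h, rfl⟩
    simp [hF, this]
  have hz' : ∀ y, y ∉ Arr.src '' tsupport θ' → F y = 0 := by
    intro y hy
    have : ∀ g : Fibre y, θ' (arr g) = 0 := fun g =>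
      image_eq_zero_of_notMem_tsupport fun h => hy ⟨arr g, h, rfl⟩
    simp [hF, this]
  refine ⟨?_, ?_⟩
  · rw [continuous_iff_continuousAt]
    intro y₀
    by_cases h1 : y₀ ∈ Arr.src '' tsupport θ
    swap
    · have : F =ᶠ[𝓝 y₀] fun _ => 0 := by
        filter_upwards [hK.isClosed.isOpen_compl.mem_nhds h1] with y hy using hz y hy
      exact continuousAt_const.congr this.symm
    by_cases h2 : y₀ ∈ Arr.src '' tsupport θ'
    swap
    · have : F =ᶠ[𝓝 y₀] fun _ => 0 := by
        filter_upwards [hK'.isClosed.isOpen_compl.mem_nhds h2] with y hy using hz' y hy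
      exact continuousAt_const.congr this.symm
    obtain ⟨g₀, hg₀, rfl⟩ := h1
    obtain ⟨g₁, hg₁, hg₀₁⟩ := h2
    obtain ⟨σ, hσc, hσ0, hσ⟩ := exists_local_section U hU g₀ (hsU hg₀)
    obtain ⟨σ', hσ'c, hσ'0, hσ'⟩ := exists_local_section U' hU' g₁ (hsU' hg₁)
    rw [hg₀₁] at hσ'c hσ'0 hσ'
    have hev : (fun y => θ (σ y) * θ' (σ' y) * η (quotA (σ y) (σ' y))) =ᶠ[𝓝 g₀.src] F := by
      filter_upwards [hσ, hσ'] with y hy hy'
      obtain ⟨g, hg⟩ := exists_arr (σ y) hy.2
      obtain ⟨g', hg'⟩ := exists_arr (σ' y) hy'.2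
      simp only [hF]
      rw [finsum_eq_single _ g, finsum_eq_single _ g']
      · rw [← hg, ← hg', quotA_arr]
      · intro k hk
        have : θ' (arr k) = 0 := by
          refine eq_zero_of_notMem hsU' fun hkU => hk ?_
          refine arr_inj (hiU' hkU (by rw [hg']; exact hy'.1) rfl)
        rw [this]; ring
      · intro k hk
        have : θ (arr k) = 0 := by
          refine eq_zero_of_notMem hsU fun hkU => hk ?_
          refine arr_inj (hiU hkU (by rw [hg]; exact hy.1) rfl)
        simp [this]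
    refine ContinuousAt.congr ?_ hev
    refine ((hθ.1.continuousAt.comp hσc).mul (hθ'.1.continuousAt.comp hσ'c)).mul ?_
    have hq : ContinuousAt (fun y => quotA (σ y) (σ' y)) g₀.src := by
      have h3 : ContinuousWithinAt (fun p : Arr X × Arr X => quotA p.1 p.2)
          {p | p.2.src = p.1.src} (σ g₀.src, σ' g₀.src) := by
        refine continuousOn_quotA _ ?_
        have e1 := hσ.self_of_nhds.2
        have e2 := hσ'.self_of_nhds.2
        change (σ' g₀.src).src = (σ g₀.src).src
        rw [e1, e2]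
      have h4 : Filter.Tendsto (fun y => (σ y, σ' y)) (𝓝 g₀.src)
          (𝓝[{p | p.2.src = p.1.src}] (σ g₀.src, σ' g₀.src)) := by
        refine tendsto_nhdsWithin_iff.2 ⟨hσc.prodMk hσ'c, ?_⟩
        filter_upwards [hσ, hσ'] with y hy hy'
        rw [hy.2, hy'.2]
      exact h3.tendsto.comp h4
    exact hη.1.continuousAt.comp hq
  · refine HasCompactSupport.intro hK hz

open TC in
/-- pushing a section forward along the inverse arrows -/
theorem push_inv_mem [EtaleGroupoid X] (A : GAlg.{u, v} X) (θ : Arr X → ℂ) (hθ : IsCc θ)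
    (a : ∀ x, A.fib x) (ha : a ∈ A.sec) :
    (fun y => ∑ᶠ g : Fibre y, θ (arr g) • A.act (Groupoid.inv g.2) (a g.1)) ∈ A.sec := by
  have hcont : Continuous (invArr : Arr X → Arr X) := EtaleGroupoid.inv_cont
  have hinv : Function.Involutive (invArr : Arr X → Arr X) := by
    intro g
    simp [invArr]
  let e : Arr X ≃ₜ Arr X :=
    { toFun := invArr
      invFun := invArr
      left_inv := hinv
      right_inv := hinv
      continuous_toFun := hcont
      continuous_invFun := hcont }
  have hc : IsCc (θ ∘ invArr) := ⟨hθ.1.comp hcont, hθ.2.comp_homeomorph e⟩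
  have h := A.act_cont (θ ∘ invArr) hc a ha
  convert h using 2 with y
  let E : (Σ x, (x ⟶ y)) ≃ Fibre y :=
    { toFun := fun g => ⟨g.1, Groupoid.inv g.2⟩
      invFun := fun g => ⟨g.1, Groupoid.inv g.2⟩
      left_inv := fun g => by simp
      right_inv := fun g => by simp }
  rw [← finsum_comp_equiv E]
  refine finsum_congr fun g => ?_
  simp [E, invArr, arr]

/-- the matrix of sections attached to bump functions `θ i` and an element `f` -/
noncomputable def secMat {A : GAlg.{u, v} X} {r : ℕ} (θ : Fin r → Arr X → ℝ) (f : MatFam A)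
    (y : X) (i j : Fin r) : A.fib y :=
  ∑ᶠ g : Fibre y, ∑ᶠ g' : Fibre y, ((θ i (arr g) * θ j (arr g') : ℝ) : ℂ) • f y g g'

namespace TC

/-- in every fibre, at most one arrow matters -/
theorem exists_fib {θ : Arr X → ℝ} (hθ : IsBump θ) (y : X) :
    ∃ g : Fibre y, ∀ k : Fibre y, k ≠ g → θ (arr k) = 0 := by
  obtain ⟨U, hU, hsU, hiU, -⟩ := hθ.bis
  by_cases h : ∃ g : Fibre y, arr g ∈ U
  · obtain ⟨g, hg⟩ := h
    refine ⟨g, fun k hk => eq_zero_of_notMem hsU fun hkU => hk (arr_inj (hiU hkU hg rfl))⟩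
  · push Not at h
    exact ⟨⟨y, 𝟙 y⟩, fun k _ => eq_zero_of_notMem hsU (h k)⟩

theorem secMat_eq {A : GAlg.{u, v} X} {r : ℕ} {θ : Fin r → Arr X → ℝ}
    (i j : Fin r) (y : X) (g g' : Fibre y) (hg : ∀ k : Fibre y, k ≠ g → θ i (arr k) = 0)
    (hg' : ∀ k : Fibre y, k ≠ g' → θ j (arr k) = 0) (f : MatFam A) :
    secMat θ f y i j = ((θ i (arr g) * θ j (arr g') : ℝ) : ℂ) • f y g g' := by
  unfold secMat
  rw [finsum_eq_single _ g, finsum_eq_single _ g']
  · intro k hk; rw [hg' k hk]; simp
  · intro k hk; rw [hg k hk]; simp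

end TC

open TC in
theorem secMat_mem [EtaleGroupoid X] (A : GAlg.{u, v} X) {r : ℕ} (θ : Fin r → Arr X → ℝ)
    (hθ : ∀ i, IsBump (θ i)) (f : MatFam A) (hf : f ∈ algCrossed A) (i j : Fin r) :
    (fun y => secMat θ f y i j) ∈ A.sec := by
  unfold algCrossed at hf
  induction hf using Submodule.span_induction with
  | mem m hm =>
    obtain ⟨η, hη, a, ha, rfl⟩ := hm
    let τ : Arr X → ℂ := fun g => ((Real.sqrt (θ i g) : ℝ) : ℂ)
    let τ' : Arr X → ℂ := fun g => ((θ j g : ℝ) : ℂ)
    have hτs : tsupport τ ⊆ tsupport (θ i) := by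
      refine closure_mono fun g hg hg' => hg ?_
      change ((Real.sqrt (θ i g) : ℝ) : ℂ) = 0
      rw [show θ i g = 0 from hg']; simp
    have hτ's : tsupport τ' ⊆ tsupport (θ j) := by
      refine closure_mono fun g hg hg' => hg ?_
      change ((θ j g : ℝ) : ℂ) = 0
      rw [show θ j g = 0 from hg']; simp
    have hτ : IsCc τ := by
      refine ⟨Complex.continuous_ofReal.comp (Real.continuous_sqrt.comp (hθ i).cont), ?_⟩
      exact (hθ i).cpt.of_isClosed_subset (isClosed_tsupport _) hτs
    have hτ' : IsCc τ' := by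
      refine ⟨Complex.continuous_ofReal.comp (hθ j).cont, ?_⟩
      exact (hθ j).cpt.of_isClosed_subset (isClosed_tsupport _) hτ's
    have bτ : BisSupp τ := by
      obtain ⟨U, hU, hsU, h1, h2⟩ := (hθ i).bis
      exact ⟨U, hU, hτs.trans hsU, h1, h2⟩
    have bτ' : BisSupp τ' := by
      obtain ⟨U, hU, hsU, h1, h2⟩ := (hθ j).bis
      exact ⟨U, hU, hτ's.trans hsU, h1, h2⟩
    have key := A.cc_smul_mem _ (isCc_scalar τ τ' η hτ hτ' hη bτ bτ') _
      (push_inv_mem A τ hτ a ha)
    convert key using 2 with y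
    obtain ⟨g, hg⟩ := exists_fib (hθ i) y
    obtain ⟨g', hg'⟩ := exists_fib (hθ j) y
    have hg1 : ∀ k : Fibre y, k ≠ g → τ (arr k) = 0 := fun k hk => by
      change ((Real.sqrt (θ i (arr k)) : ℝ) : ℂ) = 0
      rw [hg k hk]; simp
    have hg2 : ∀ k : Fibre y, k ≠ g' → τ' (arr k) = 0 := fun k hk => by
      change ((θ j (arr k) : ℝ) : ℂ) = 0
      rw [hg' k hk]; simp
    rw [secMat_eq i j y g g' hg hg', finsum_eq_single _ g, finsum_eq_single _ g',
      finsum_eq_single _ g]
    · have h1 : (Real.sqrt (θ i (arr g)) : ℂ) * (Real.sqrt (θ i (arr g)) : ℂ) = (θ i (arr g) : ℂ) := by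
        rw [← Complex.ofReal_mul, Real.mul_self_sqrt ((hθ i).nonneg _)]
      simp only [genElem, map_smul, smul_smul, τ, τ']
      congr 1
      rw [Complex.ofReal_mul, ← h1]
      ring
    · intro k hk; rw [hg1 k hk]; simp
    · intro k hk; rw [hg2 k hk]; simp
    · intro k hk; rw [hg1 k hk]; simp
  | zero =>
    have : (fun y => secMat θ (0 : MatFam A) y i j) = fun _ => 0 := by
      funext y
      simp [secMat]
    rw [this]; exact A.zero_mem
  | add f f' _ _ h h' =>
    have : (fun y => secMat θ (f + f') y i j) =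
        fun y => secMat θ f y i j + secMat θ f' y i j := by
      funext y
      obtain ⟨g, hg⟩ := exists_fib (hθ i) y
      obtain ⟨g', hg'⟩ := exists_fib (hθ j) y
      rw [secMat_eq i j y g g' hg hg', secMat_eq i j y g g' hg hg', secMat_eq i j y g g' hg hg',
        ← smul_add]
      rfl
    rw [this]; exact A.add_mem _ h _ h'
  | smul c f _ h =>
    have : (fun y => secMat θ (c • f) y i j) = fun y => c • secMat θ f y i j := by
      funext y
      obtain ⟨g, hg⟩ := exists_fib (hθ i) y
      obtain ⟨g', hg'⟩ := exists_fib (hθ j) y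
      rw [secMat_eq i j y g g' hg hg', secMat_eq i j y g g' hg hg', smul_comm]
      rfl
    rw [this]; exact A.smul_mem c _ h

end TopSpec

end Pool.Agent.KW
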